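import Mathlib
import Pool.Agent.Q101.TowerGroup

/-!
# MP_caf75b_al, Q1: no infinite tower of abelian extensions of finite connected quandles
-/

namespace Pool.Agent.Results.MP_caf75b_al.NoInfiniteTower

open scoped commutatorElement
open Pool.Agent.Q101.TowerGroup

universe u v

/-- A quandle on a type `X`: (1) `a*a=a`; (2) for all `b,c` there is a unique `a` with
`a*b=c`; (3) `(a*b)*c=(a*c)*(b*c)`. -/
structure QuandleOn (X : Type u) where
  op : X → X → X
  idem : ∀ a, op a a = a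
  div : ∀ b c, ∃! a, op a b = c
  dist : ∀ a b c, op (op a b) c = op (op a c) (op b c)

variable {X : Type u} {Y : Type v}

/-- The right translation `R_b : x ↦ x * b`, as a permutation of `X`. -/
noncomputable def QuandleOn.R (Q : QuandleOn X) (b : X) : Equiv.Perm X :=
  Equiv.ofBijective (fun x => Q.op x b)
    ⟨fun _ y h => (Q.div b (Q.op y b)).unique h rfl, fun c => (Q.div b c).exists⟩

/-- The inner automorphism group: the subgroup of `Sym(X)` generated by all `R_b`. -/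
def QuandleOn.Inn (Q : QuandleOn X) : Subgroup (Equiv.Perm X) :=
  Subgroup.closure (Set.range Q.R)

/-- `Q` is connected: `Inn(Q)` acts transitively. -/
def QuandleOn.Connected (Q : QuandleOn X) : Prop :=
  Nonempty X ∧ ∀ x y : X, ∃ g ∈ Q.Inn, g x = y

/-- `φ : X × X → A` is a quandle 2-cocycle. -/
def IsCocycle (Q : QuandleOn X) {A : Type*} [AddCommGroup A] (φ : X → X → A) : Prop :=
  (∀ x y z, φ x y - φ x z + φ (Q.op x y) z - φ (Q.op x z) (Q.op y z) = 0) ∧ ∀ x, φ x x = 0

/-- The abelian extension `E(X,A,φ)`. -/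
def abelianExtension (Q : QuandleOn X) {A : Type*} [AddCommGroup A] (φ : X → X → A)
    (hφ : IsCocycle Q φ) : QuandleOn (X × A) where
  op := fun p q => (Q.op p.1 q.1, p.2 + φ p.1 q.1)
  idem := fun p => by simp [Q.idem, hφ.2]
  div := by
    intro b c
    obtain ⟨x, hx, hu⟩ := Q.div b.1 c.1
    refine ⟨(x, c.2 - φ x b.1), ?_, ?_⟩
    · apply Prod.ext
      · exact hx
      · show c.2 - φ x b.1 + φ x b.1 = c.2
        abel
    · intro y hy
      have h1 : Q.op y.1 b.1 = c.1 := congrArg Prod.fst hy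
      have h2 : y.2 + φ y.1 b.1 = c.2 := congrArg Prod.snd hy
      have h3 := hu y.1 h1
      apply Prod.ext
      · exact h3
      · show y.2 = c.2 - φ x b.1
        rw [← h3, ← h2]
        abel
  dist := by
    intro a b c
    apply Prod.ext
    · exact Q.dist _ _ _
    · have := hφ.1 a.1 b.1 c.1
      show a.2 + φ a.1 b.1 + φ (Q.op a.1 b.1) c.1
        = a.2 + φ a.1 c.1 + φ (Q.op a.1 c.1) (Q.op b.1 c.1)
      rw [← sub_eq_zero, ← this]
      abel

/-- `Q'` (on `Y`) is isomorphic to an abelian extension `E(Q, A, φ)` with `A` nontrivial. -/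
def IsNontrivialAbelianExtension (Q' : QuandleOn Y) (Q : QuandleOn X) : Prop :=
  ∃ (A : Type v) (_ : AddCommGroup A) (_ : Nontrivial A) (φ : X → X → A) (hφ : IsCocycle Q φ)
    (e : Y ≃ X × A), ∀ x y : Y, e (Q'.op x y) = (abelianExtension Q φ hφ).op (e x) (e y)

/-! ### Inner automorphism groups -/

theorem R_apply (Q : QuandleOn X) (b x : X) : Q.R b x = Q.op x b := rfl

theorem inn_hom (Q : QuandleOn X) {g : Equiv.Perm X} (hg : g ∈ Q.Inn) :
    ∀ x y, g (Q.op x y) = Q.op (g x) (g y) := by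
  induction hg using Subgroup.closure_induction with
  | mem g hg =>
    obtain ⟨b, rfl⟩ := hg
    intro x y
    exact Q.dist x y b
  | one => intro x y; rfl
  | mul g h _ _ hg hh =>
    intro x y
    show g (h _) = Q.op (g (h _)) (g (h _))
    rw [hh, hg]
  | inv g _ hg =>
    intro x y
    apply g.injective
    rw [hg]
    simp

theorem conj_R (Q : QuandleOn X) {g : Equiv.Perm X} (hg : g ∈ Q.Inn) (b : X) :
    g * Q.R b * g⁻¹ = Q.R (g b) := by
  rw [mul_inv_eq_iff_eq_mul]
  ext x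
  show g (Q.op x b) = Q.op (g x) (g b)
  exact inn_hom Q hg x b

theorem R_mem (Q : QuandleOn X) (b : X) : Q.R b ∈ Q.Inn := Subgroup.subset_closure ⟨b, rfl⟩

theorem R_self (Q : QuandleOn X) (b : X) : Q.R b b = b := Q.idem b

/-- For a surjective homomorphism `π : Q' → Q`, each inner automorphism of `Q'` induces one
of `Q`. -/
theorem exists_hom (Q' : QuandleOn Y) (Q : QuandleOn X) (π : Y → X) (hπ : Function.Surjective π)
    (hhom : ∀ x y, π (Q'.op x y) = Q.op (π x) (π y)) :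
    ∃ F : Q'.Inn →* Q.Inn, Function.Surjective F ∧
      ∀ (g : Q'.Inn) (y : Y), π ((g : Equiv.Perm Y) y) = (F g : Equiv.Perm X) (π y) := by
  have h1 : ∀ g ∈ Q'.Inn, ∃ h ∈ Q.Inn, ∀ y, π (g y) = h (π y) := by
    intro g hg
    induction hg using Subgroup.closure_induction with
    | mem g hg =>
      obtain ⟨b, rfl⟩ := hg
      exact ⟨Q.R (π b), R_mem Q _, fun y => hhom y b⟩
    | one => exact ⟨1, one_mem _, fun y => rfl⟩
    | mul g h _ _ hg hh =>
      obtain ⟨g', hg', e⟩ := hg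
      obtain ⟨h', hh', f⟩ := hh
      refine ⟨g' * h', mul_mem hg' hh', fun y => ?_⟩
      show π (g (h y)) = g' (h' (π y))
      rw [e, f]
    | inv g _ hg =>
      obtain ⟨g', hg', e⟩ := hg
      refine ⟨g'⁻¹, inv_mem hg', fun y => ?_⟩
      rw [Equiv.Perm.eq_inv_iff_eq, ← e]
      simp
  have h2 : ∀ h ∈ Q.Inn, ∃ g ∈ Q'.Inn, ∀ y, π (g y) = h (π y) := by
    intro h hh
    induction hh using Subgroup.closure_induction with
    | mem h hh =>
      obtain ⟨b, rfl⟩ := hh
      obtain ⟨c, rfl⟩ := hπ b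
      exact ⟨Q'.R c, R_mem Q' _, fun y => hhom y c⟩
    | one => exact ⟨1, one_mem _, fun y => rfl⟩
    | mul g h _ _ hg hh =>
      obtain ⟨g', hg', e⟩ := hg
      obtain ⟨h', hh', f⟩ := hh
      refine ⟨g' * h', mul_mem hg' hh', fun y => ?_⟩
      show π (g' (h' y)) = g (h (π y))
      rw [e, f]
    | inv g _ hg =>
      obtain ⟨g', hg', e⟩ := hg
      refine ⟨g'⁻¹, inv_mem hg', fun y => ?_⟩
      rw [Equiv.Perm.eq_inv_iff_eq, ← e]
      simp
  choose f hf hfe using h1
  have huniq : ∀ (h h' : Equiv.Perm X), (∀ y, h (π y) = h' (π y)) → h = h' := by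
    intro h h' hh
    ext x
    obtain ⟨y, rfl⟩ := hπ x
    exact hh y
  refine ⟨MonoidHom.mk' (fun g => ⟨f g g.2, hf g g.2⟩) ?_, ?_, ?_⟩
  · intro a b
    apply Subtype.ext
    apply huniq
    intro y
    show f _ (a * b).2 (π y) = f a a.2 (f b b.2 (π y))
    rw [← hfe _ (a * b).2, ← hfe b b.2, ← hfe a a.2]
    rfl
  · rintro ⟨h, hh⟩
    obtain ⟨g, hg, e⟩ := h2 h hh
    refine ⟨⟨g, hg⟩, ?_⟩
    apply Subtype.ext
    apply huniq
    intro y
    show f g hg (π y) = h (π y)
    rw [← hfe g hg, e]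
  · intro g y
    exact hfe g g.2 y

/-- If moreover elements of a fibre have equal right translations, the kernel is central. -/
theorem ker_le_center (Q' : QuandleOn Y) (Q : QuandleOn X) (π : Y → X)
    (hcov : ∀ x y, π x = π y → Q'.R x = Q'.R y)
    (F : Q'.Inn →* Q.Inn)
    (hF : ∀ (g : Q'.Inn) (y : Y), π ((g : Equiv.Perm Y) y) = (F g : Equiv.Perm X) (π y)) :
    F.ker ≤ Subgroup.center Q'.Inn := by
  intro g hg
  have hg1 : F g = 1 := hg
  have hfix : ∀ y, π ((g : Equiv.Perm Y) y) = π y := by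
    intro y
    rw [hF, hg1]
    rfl
  have hcomm : ∀ b, (g : Equiv.Perm Y) * Q'.R b = Q'.R b * (g : Equiv.Perm Y) := by
    intro b
    rw [← mul_inv_eq_iff_eq_mul, conj_R Q' g.2]
    exact hcov _ _ (hfix b)
  rw [Subgroup.mem_center_iff]
  rintro ⟨h, hh⟩
  apply Subtype.ext
  show h * (g : Equiv.Perm Y) = g * h
  induction hh using Subgroup.closure_induction with
  | mem h hh =>
    obtain ⟨b, rfl⟩ := hh
    exact (hcomm b).symm
  | one => simp
  | mul a b _ _ ha hb => rw [mul_assoc, hb, ← mul_assoc, ha, mul_assoc]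
  | inv a _ ha =>
    have : Commute a (g : Equiv.Perm Y) := ha
    exact this.inv_left

/-- `Inn(Q) = [Inn(Q), Inn(Q)] ⟨R_a⟩` for a connected quandle. -/
theorem inn_top (Q : QuandleOn X) (hQ : Q.Connected) (a : X) :
    commutator Q.Inn ⊔ Subgroup.zpowers (⟨Q.R a, R_mem Q a⟩ : Q.Inn) = ⊤ := by
  rw [eq_top_iff]
  rintro ⟨g, hg⟩ -
  set K := commutator Q.Inn ⊔ Subgroup.zpowers (⟨Q.R a, R_mem Q a⟩ : Q.Inn) with hK
  have hR : ∀ b, (⟨Q.R b, R_mem Q b⟩ : Q.Inn) ∈ K := by
    intro b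
    obtain ⟨h, hh, rfl⟩ := hQ.2 a b
    have e : (⟨Q.R (h a), R_mem Q _⟩ : Q.Inn)
        = ⁅(⟨h, hh⟩ : Q.Inn), (⟨Q.R a, R_mem Q a⟩ : Q.Inn)⁆ * ⟨Q.R a, R_mem Q a⟩ := by
      apply Subtype.ext
      show Q.R (h a) = ⁅h, Q.R a⁆ * Q.R a
      rw [← conj_R Q hh, commutatorElement_def]
      group
    rw [e]
    apply K.mul_mem
    · exact (le_sup_left : commutator Q.Inn ≤ K) (Subgroup.commutator_mem_commutator trivial trivial)
    · exact (le_sup_right : _ ≤ K) (Subgroup.mem_zpowers _)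
  induction hg using Subgroup.closure_induction with
  | mem h hh =>
    obtain ⟨b, rfl⟩ := hh
    exact hR b
  | one => exact K.one_mem
  | mul x y hx hy ihx ihy => exact K.mul_mem (ihx) (ihy)
  | inv x hx ihx => exact K.inv_mem ihx

/-- `|Q| ≤ |[Inn(Q), Inn(Q)]|` for a connected finite quandle. -/
theorem card_le (Q : QuandleOn X) [Finite X] (hQ : Q.Connected) :
    Nat.card X ≤ Nat.card (commutator Q.Inn) := by
  obtain ⟨a⟩ := hQ.1
  have htop := inn_top Q hQ a
  apply Nat.card_le_card_of_surjective (fun d : commutator Q.Inn => ((d : Q.Inn) : Equiv.Perm X) a)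
  intro x
  obtain ⟨g, hg, rfl⟩ := hQ.2 a x
  obtain ⟨d, hd, k, e⟩ := top_sup htop (⟨g, hg⟩ : Q.Inn)
  refine ⟨⟨d, hd⟩, ?_⟩
  have e' := congrArg Subtype.val e
  show (d : Equiv.Perm X) a = g a
  have e'' : g = (d : Equiv.Perm X) * (Q.R a) ^ k := e'
  rw [e'', Equiv.Perm.mul_apply]
  congr 1
  have hfix : Q.R a a = a := R_self Q a
  exact (Equiv.Perm.zpow_apply_eq_self_of_apply_eq_self hfix k).symm

theorem comap_ucs_le {G H : Type*} [Group G] [Group H] (f : G →* H) (hf : f.ker ≤ Subgroup.center G) (k : ℕ) :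
    (Subgroup.upperCentralSeries H k).comap f ≤ Subgroup.upperCentralSeries G (k+1) := by
  induction k with
  | zero =>
    rw [Subgroup.upperCentralSeries_zero, MonoidHom.comap_bot, zero_add, Subgroup.upperCentralSeries_one]
    exact hf
  | succ k ih =>
    intro g hg
    rw [Subgroup.mem_upperCentralSeries_succ_iff]
    intro y
    apply ih
    rw [Subgroup.mem_comap, map_commutatorElement]
    exact Subgroup.mem_upperCentralSeries_succ_iff.1 hg (f y)

/-- A tower `Q_0 ← Q_1 ← ⋯ ← Q_k` of finite connected quandles, each isomorphic to an abelian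
extension of the previous one by a nontrivial abelian group. -/
structure IsTower (k : ℕ) (Q : ℕ → Type u) (q : ∀ n, QuandleOn (Q n)) : Prop where
  fin : ∀ n ≤ k, Finite (Q n)
  conn : ∀ n ≤ k, (q n).Connected
  ext : ∀ n < k, IsNontrivialAbelianExtension (q (n+1)) (q n)

theorem ext_props (Q' : QuandleOn Y) (Q : QuandleOn X) [Finite Y]
    (h : IsNontrivialAbelianExtension Q' Q) :
    (∃ π : Y → X, Function.Surjective π ∧ (∀ x y, π (Q'.op x y) = Q.op (π x) (π y)) ∧
      (∀ x y, π x = π y → Q'.R x = Q'.R y)) ∧ 2 * Nat.card X ≤ Nat.card Y := by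
  obtain ⟨A, _, _, φ, hφ, e, he⟩ := h
  refine ⟨⟨fun y => (e y).1, ?_, ?_, ?_⟩, ?_⟩
  · intro x
    exact ⟨e.symm (x, 0), by simp⟩
  · intro x y
    show (e (Q'.op x y)).1 = _
    rw [he]
    rfl
  · intro x y hxy
    ext z
    show Q'.op z x = Q'.op z y
    apply e.injective
    rw [he, he]
    show (Q.op (e z).1 (e x).1, (e z).2 + φ (e z).1 (e x).1) = (Q.op (e z).1 (e y).1, (e z).2 + φ (e z).1 (e y).1)
    rw [show (e x).1 = (e y).1 from hxy]
  · have hfin : Finite (X × A) := Finite.of_equiv Y e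
    rcases isEmpty_or_nonempty X with hX | hX
    · simp
    · have hA : Finite A := Finite.prod_right X
      rw [Nat.card_congr e, Nat.card_prod, mul_comm]
      exact Nat.mul_le_mul_left _ Finite.one_lt_card

theorem tower_bound {k : ℕ} {Q : ℕ → Type u} {q : ∀ n, QuandleOn (Q n)} (h : IsTower k Q q) :
    ∀ n ≤ k, 2 ^ n * Nat.card (Q 0) ≤ Nat.card (Q n) ∧
      ∃ F : (q n).Inn →* (q 0).Inn, Function.Surjective F ∧
        F.ker ≤ Subgroup.upperCentralSeries (q n).Inn n := by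
  intro n
  induction n with
  | zero =>
    intro _
    refine ⟨by simp, MonoidHom.id _, fun x => ⟨x, rfl⟩, ?_⟩
    intro x hx
    have : x = 1 := hx
    rw [this]
    exact one_mem _
  | succ n ih =>
    intro hn
    obtain ⟨h1, F, hF, hker⟩ := ih (by omega)
    have := h.fin (n+1) hn
    obtain ⟨⟨π, hπ, hhom, hcov⟩, hcard⟩ := ext_props (q (n+1)) (q n) (h.ext n (by omega))
    obtain ⟨f, hf, hfe⟩ := exists_hom (q (n+1)) (q n) π hπ hhom
    have hfk := ker_le_center (q (n+1)) (q n) π hcov f hfe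
    refine ⟨?_, F.comp f, hF.comp hf, ?_⟩
    · calc 2 ^ (n+1) * Nat.card (Q 0) = 2 * (2 ^ n * Nat.card (Q 0)) := by ring
        _ ≤ 2 * Nat.card (Q n) := Nat.mul_le_mul_left _ h1
        _ ≤ _ := hcard
    · rw [← MonoidHom.comap_ker]
      exact (Subgroup.comap_mono hker).trans (comap_ucs_le f hfk n)

/-- **Main bound.** In a tower `Q_0 ← ⋯ ← Q_k`, `2^k |Q_0| ≤ |Q_k| ≤ m^(m^3+2)` with
`m = |Inn(Q_0)|`. -/
theorem bound {k : ℕ} {Q : ℕ → Type u} {q : ∀ n, QuandleOn (Q n)} (h : IsTower k Q q) :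
    2 ^ k * Nat.card (Q 0) ≤ Nat.card (Q k) ∧
    Nat.card (Q k) ≤ Nat.card (q 0).Inn ^ (Nat.card (q 0).Inn ^ 3 + 2) := by
  obtain ⟨h1, F, hF, hker⟩ := tower_bound h k le_rfl
  have := h.fin k le_rfl
  refine ⟨h1, ?_⟩
  obtain ⟨a⟩ := (h.conn k le_rfl).1
  have h2 := card_le (q k) (h.conn k le_rfl)
  have h3 := card_commutator_le (inn_top (q k) (h.conn k le_rfl) a) k F.ker hker
  have h4 : F.ker.index = Nat.card (q 0).Inn := by
    rw [Subgroup.index_ker, MonoidHom.range_eq_top.2 hF, Subgroup.card_top]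
  rw [h4] at h3
  exact h2.trans h3

/-- **Answer to Q1 (no).**
(i) There is no infinite sequence of finite connected quandles in which each is isomorphic to
an abelian extension of the previous one by a nontrivial abelian group.
(ii) Quantitatively: every finite tower `Q_0 ← Q_1 ← ⋯ ← Q_k` of such extensions satisfies
`2^k |Q_0| ≤ |Q_k| ≤ m^(m^3+2)` where `m = |Inn(Q_0)|`; so the length `k` and the size of the top
of a tower over a given finite connected quandle `Q_0` are bounded. -/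
theorem result :
    (¬ ∃ (Q : ℕ → Type u) (q : ∀ n, QuandleOn (Q n)), (∀ n, Finite (Q n)) ∧
        (∀ n, (q n).Connected) ∧ ∀ n, IsNontrivialAbelianExtension (q (n+1)) (q n)) ∧
    (∀ (k : ℕ) (Q : ℕ → Type u) (q : ∀ n, QuandleOn (Q n)), IsTower k Q q →
        2 ^ k * Nat.card (Q 0) ≤ Nat.card (Q k) ∧
        Nat.card (Q k) ≤ Nat.card (q 0).Inn ^ (Nat.card (q 0).Inn ^ 3 + 2)) := by
  refine ⟨?_, fun k Q q h => bound h⟩
  rintro ⟨Q, q, hfin, hconn, hext⟩
  set m := Nat.card (q 0).Inn ^ (Nat.card (q 0).Inn ^ 3 + 2) with hm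
  have h1 := bound (k := m) (Q := Q) (q := q)
    ⟨fun n _ => hfin n, fun n _ => hconn n, fun n _ => hext n⟩
  have h2 : 2 ^ m * Nat.card (Q 0) ≤ m := h1.1.trans h1.2
  have := hfin 0
  have := (hconn 0).1
  have h3 : 1 ≤ Nat.card (Q 0) := Nat.card_pos
  have h4 : m < 2 ^ m := Nat.lt_two_pow_self
  have : 2 ^ m * 1 ≤ 2 ^ m * Nat.card (Q 0) := Nat.mul_le_mul_left _ h3
  omega

end Pool.Agent.Results.MP_caf75b_al.NoInfiniteTower
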